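import Pool.Agent.Helper68.SG2.GoalsT
import Pool.Agent.Helper65.SG.Tay

/-!
# SH2-TAYT (MP_a41896_nt, project SG, stage 2): Taylor expansions for elliptic curves and `G_m`
-/

set_option autoImplicit false

namespace Pool.Agent.Helper3.SG2

open WeierstrassCurve Height
open Pool.Agent.Helper29.BL Pool.Agent.Helper92.Ru Pool.Agent.Helper42.SG Pool.Agent.Helper65.SG
open Pool.Agent.Helper68.SG2

section geo

variable {K : Type} [Field K] {σ : Type}

/-- partial sums of the geometric series -/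
noncomputable def GG (g : MvPowerSeries σ K) : ℕ → MvPowerSeries σ K
  | 0 => 1
  | k + 1 => 1 + g * GG g k

lemma GG_diff (g y : MvPowerSeries σ K) (hy : (1 - g) * y = 1) (k : ℕ) :
    g ^ (k + 1) ∣ GG g k - y := by
  have hy' : y = 1 + g * y := by linear_combination hy
  induction k with
  | zero =>
    refine ⟨-y, ?_⟩
    rw [GG]
    linear_combination -hy'
  | succ k ih =>
    obtain ⟨c, hc⟩ := ih
    refine ⟨c, ?_⟩
    rw [GG]
    linear_combination g * hc - hy'

lemma coeff_GG {g y : MvPowerSeries σ K} (hg : MvPowerSeries.constantCoeff g = 0)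
    (hy : (1 - g) * y = 1) {α : σ →₀ ℕ} {k : ℕ} (hk : α.degree < k + 1) :
    MvPowerSeries.coeff α (GG g k) = MvPowerSeries.coeff α y := by
  rw [← sub_eq_zero, ← map_sub]
  exact coeff_dvd hg (GG_diff g y hy k) hk

lemma nps_of_GG {v : AbsoluteValue K ℝ} {r : σ → ℝ} {g y : MvPowerSeries σ K}
    (hg : MvPowerSeries.constantCoeff g = 0) (hy : (1 - g) * y = 1) {T : ℝ}
    (h : ∀ k, NPS v r (GG g k) T) : NPS v r y T := by
  classical
  refine ⟨(h 0).1, fun hv α => ?_, fun hv S => ?_⟩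
  · rw [← coeff_GG hg hy (Nat.lt_succ_self α.degree)]
    exact (h _).2.1 hv α
  · refine le_trans (le_of_eq ?_) ((h (S.sup (fun α => α.degree))).2.2 hv S)
    refine Finset.sum_congr rfl fun α hα => ?_
    rw [coeff_GG hg hy (Nat.lt_succ_of_le (Finset.le_sup (f := fun α => α.degree) hα))]

/-- The geometric series. -/
theorem geo_series (g : MvPowerSeries σ K) (hg : MvPowerSeries.constantCoeff g = 0) :
    ∃ y : MvPowerSeries σ K, (1 - g) * y = 1 ∧ MvPowerSeries.constantCoeff y = 1 ∧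
      ∀ (v : AbsoluteValue K ℝ) (r : σ → ℝ), (∀ i, 0 < r i) →
        NPS v r g (1 / c2 v) → NPS v r y (c2 v) := by
  have h0 : MvPowerSeries.constantCoeff (1 - g) ≠ 0 := by
    rw [map_sub, hg, map_one, sub_zero]
    exact one_ne_zero
  have hy : (1 - g) * (1 - g)⁻¹ = 1 := MvPowerSeries.mul_inv_cancel _ h0
  refine ⟨(1 - g)⁻¹, hy, ?_, ?_⟩
  · have h1 := congrArg MvPowerSeries.constantCoeff hy
    rw [map_mul, map_sub, hg, map_one, sub_zero, one_mul] at h1
    exact h1
  · intro v r hr h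
    refine nps_of_GG hg hy fun k => ?_
    have hN := nfr_nps (K := K) v hr
    have hc := one_le_c2 v
    induction k with
    | zero => exact hN.mono _ _ _ (frame_one hN) hc
    | succ k ih =>
      have h1 := hN.mul _ _ _ _ h ih
      have h2 : 1 / c2 v * c2 v = 1 := by
        have : 0 < c2 v := by linarith
        field_simp
      rw [h2] at h1
      have h3 := frame_add hN (frame_one hN) h1
      rw [mul_one] at h3
      exact h3

end geo

section gm

variable {K : Type} [Field K]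

lemma gm_point {σ : Type} (i : σ) (ξ ψ : K) (hψ : ξ * ψ = 1) :
    ∃ P : MvPowerSeries σ K,
      (MvPowerSeries.C ξ + MvPowerSeries.C (ξ - 1) * MvPowerSeries.X i) * P = 1 ∧
      MvPowerSeries.constantCoeff P = ψ ∧
      ∀ (v : AbsoluteValue K ℝ) (r : σ → ℝ) (B : ℝ), (∀ i, 0 < r i) → c2 v ^ 2 ≤ B →
        r i = 1 / (B * Mv v ψ ^ 2) →
        NPS v r (MvPowerSeries.C ξ + MvPowerSeries.C (ξ - 1) * MvPowerSeries.X i) (B * v ξ) ∧
        NPS v r P (B * v ψ) ∧
        NPS v r (MvPowerSeries.C ξ + MvPowerSeries.C (ξ - 1) * MvPowerSeries.X i - 1)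
          (B * v (ξ - 1)) := by
  obtain ⟨g, hg⟩ : ∃ g : MvPowerSeries σ K, g = MvPowerSeries.C (ψ - 1) * MvPowerSeries.X i :=
    ⟨_, rfl⟩
  have hg0 : MvPowerSeries.constantCoeff g = 0 := by
    rw [hg, map_mul, MvPowerSeries.constantCoeff_X, mul_zero]
  obtain ⟨y, hy1, hy2, hy3⟩ := geo_series g hg0
  have hE : (MvPowerSeries.C ξ : MvPowerSeries σ K) * MvPowerSeries.C ψ = 1 := by
    rw [← map_mul, hψ, map_one]
  have hX : (MvPowerSeries.C ξ + MvPowerSeries.C (ξ - 1) * MvPowerSeries.X i : MvPowerSeries σ K) =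
      MvPowerSeries.C ξ * (1 - g) := by
    rw [hg]
    simp only [map_sub, map_one]
    linear_combination (MvPowerSeries.X i) * hE
  refine ⟨MvPowerSeries.C ψ * y, ?_, ?_, ?_⟩
  · rw [hX]
    linear_combination (MvPowerSeries.C ξ * MvPowerSeries.C ψ) * hy1 + hE
  · rw [map_mul, MvPowerSeries.constantCoeff_C, hy2, mul_one]
  · intro v r B hr hB hri
    have hN := nfr_nps (K := K) v hr
    have hc := one_le_c2 v
    have hc0 : 0 < c2 v := lt_of_lt_of_le one_pos hc
    have hM := one_le_Mv v ψ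
    have hM0 := Mv_pos v ψ
    have hcB : c2 v ≤ B := by
      refine le_trans ?_ hB
      nlinarith
    have hB1 : 1 ≤ B := hc.trans hcB
    have hB0 : 0 < B := lt_of_lt_of_le one_pos hB1
    have hC : ∀ (x : K) (T : ℝ), v x ≤ T → NPS v r (MvPowerSeries.C x) T := by
      intro x T hx
      have := hN.const x
      rw [MvPowerSeries.algebraMap_apply, Algebra.algebraMap_self_apply] at this
      exact hN.mono _ _ _ this hx
    have hXi : NPS v r (MvPowerSeries.X i : MvPowerSeries σ K) (r i) := nps_X hr i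
    have hr1 : r i ≤ 1 := by
      rw [hri, div_le_one (by positivity)]
      calc (1 : ℝ) = 1 * 1 ^ 2 := by norm_num
        _ ≤ B * Mv v ψ ^ 2 := by gcongr
    have hψ1 : v (ψ - 1) ≤ c2 v * Mv v ψ := by
      have hF := t_FRPT K v
      have h1 : v ψ ≤ Mv v ψ := le_max_right _ _
      have h2 : v (-1 : K) ≤ Mv v ψ := by
        rw [v.map_neg, v.map_one]
        exact hM
      have h3 := frame_add hF h1 h2
      rwa [← sub_eq_add_neg] at h3
    have n1 : NPS v r g (1 / c2 v) := by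
      rw [hg]
      refine hN.mono _ _ _ (hN.mul _ _ _ _ (hC _ _ hψ1) hXi) ?_
      rw [hri, mul_one_div, div_le_div_iff₀ (by positivity) hc0]
      calc c2 v * Mv v ψ * c2 v = c2 v ^ 2 * Mv v ψ := by ring
        _ ≤ B * Mv v ψ ^ 2 := by
          have : Mv v ψ ≤ Mv v ψ ^ 2 := by nlinarith
          gcongr
        _ = 1 * (B * Mv v ψ ^ 2) := by ring
    have n2 := hy3 v r hr n1
    have hc1 : 1 / c2 v ≤ 1 := by
      rw [div_le_one hc0]
      exact hc
    have n3 : NPS v r (1 - g) (c2 v) := by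
      have h1 := frame_add hN (frame_one hN) (hN.mono _ _ _ (frame_neg hN n1) hc1)
      rwa [← sub_eq_add_neg, mul_one] at h1
    refine ⟨?_, ?_, ?_⟩
    · rw [hX]
      refine hN.mono _ _ _ (hN.mul _ _ _ _ (hC ξ _ le_rfl) n3) ?_
      rw [mul_comm]
      exact mul_le_mul_of_nonneg_right hcB (v.nonneg _)
    · refine hN.mono _ _ _ (hN.mul _ _ _ _ (hC ψ _ le_rfl) n2) ?_
      rw [mul_comm]
      exact mul_le_mul_of_nonneg_right hcB (v.nonneg _)
    · have e1 : (MvPowerSeries.C ξ + MvPowerSeries.C (ξ - 1) * MvPowerSeries.X i - 1 :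
          MvPowerSeries σ K) = MvPowerSeries.C (ξ - 1) * (1 + MvPowerSeries.X i) := by
        simp only [map_sub, map_one]
        ring
      rw [e1]
      have h1 := frame_add hN (frame_one hN) (hN.mono _ _ _ hXi hr1)
      rw [mul_one] at h1
      refine hN.mono _ _ _ (hN.mul _ _ _ _ (hC (ξ - 1) _ le_rfl) h1) ?_
      rw [mul_comm]
      exact mul_le_mul_of_nonneg_right hcB (v.nonneg _)

end gm

theorem t_TAYT : TAYT := by
  classical
  intro K _ _ T W n
  refine ⟨BT W, PlC_BT W, fun ξ ψ hpt => ?_⟩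
  have hex : ∀ h : Fin (2 * n + 2), ∃ P : MvPowerSeries (Fin (2 * n + 2)) K,
      (T (h.val % 2) = true → (MvPowerSeries.C (ξ h.val) +
          MvPowerSeries.C (kapT T ξ ψ h.val) * MvPowerSeries.X h) * P = 1) ∧
      (T (h.val % 2) = false → P ^ 2 =
        Bf ((W (h.val % 2)).map (algebraMap K (MvPowerSeries (Fin (2 * n + 2)) K)))
          (MvPowerSeries.C (ξ h.val) +
            MvPowerSeries.C (kapT T ξ ψ h.val) * MvPowerSeries.X h)) ∧
      MvPowerSeries.constantCoeff P = ψ h.val ∧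
      ∀ (v : AbsoluteValue K ℝ) (r : Fin (2 * n + 2) → ℝ), (∀ i, 0 < r i) →
        r h = 1 / (BT W v * Mv v (rhoT T ξ h.val) ^ 2) →
        (T (h.val % 2) = true →
          NPS v r (MvPowerSeries.C (ξ h.val) +
            MvPowerSeries.C (kapT T ξ ψ h.val) * MvPowerSeries.X h) (BT W v * v (ξ h.val)) ∧
          NPS v r P (BT W v * v (ψ h.val)) ∧
          NPS v r (MvPowerSeries.C (ξ h.val) +
            MvPowerSeries.C (kapT T ξ ψ h.val) * MvPowerSeries.X h - 1)
              (BT W v * v (ξ h.val - 1))) ∧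
        (T (h.val % 2) = false →
          NPS v r (MvPowerSeries.C (ξ h.val) +
            MvPowerSeries.C (kapT T ξ ψ h.val) * MvPowerSeries.X h) (BT W v * Mv v (ξ h.val)) ∧
          NPS v r P (BT W v * Mv v (ξ h.val) ^ 2)) := by
    intro h
    by_cases hT : T (h.val % 2) = true
    · obtain ⟨h1, _, h3⟩ := (hpt h.val h.isLt).1 hT
      have hk : kapT T ξ ψ h.val = ξ h.val - 1 := by rw [kapT, if_pos hT]
      have hrho : rhoT T ξ h.val = ψ h.val := by rw [rhoT, if_pos hT, h3]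
      rw [hk, hrho]
      obtain ⟨P, hP1, hP2, hP3⟩ := gm_point h (ξ h.val) (ψ h.val)
        (by rw [h3]; exact mul_inv_cancel₀ h1)
      refine ⟨P, fun _ => hP1, fun hf => absurd hT (by rw [hf]; simp), hP2, ?_⟩
      intro v r hr hrh
      refine ⟨fun _ => hP3 v r (BT W v) hr ?_ hrh, fun hf => absurd hT (by rw [hf]; simp)⟩
      have hc := one_le_c2 v
      calc c2 v ^ 2 ≤ c2 v ^ 10 := pow_le_pow_right₀ hc (by norm_num)
        _ ≤ c2 v ^ 10 * b01 W v := le_mul_of_one_le_right (by positivity) (one_le_b01 W v)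
    · have hTf : T (h.val % 2) = false := by simpa using hT
      obtain ⟨h1, _⟩ := (hpt h.val h.isLt).2 hTf
      have hk : kapT T ξ ψ h.val = 4 * ψ h.val ^ 2 := by rw [kapT, if_neg hT]
      have hrho : rhoT T ξ h.val = ξ h.val := by rw [rhoT, if_neg hT]
      rw [hk, hrho]
      obtain ⟨P, hP1, hP2, hP3⟩ := tay_point (W (h.val % 2)) h (ξ h.val) (ψ h.val) h1
      refine ⟨P, fun ht => absurd ht hT, fun _ => hP1, hP2, ?_⟩
      intro v r hr hrh
      refine ⟨fun ht => absurd ht hT, fun _ => ?_⟩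
      have h5 := hP3 v r (b01 W v) hr (bet_le_b01 W v h.val) hrh
      refine ⟨(nfr_nps (K := K) v hr).mono _ _ _ h5.1 ?_, h5.2⟩
      refine mul_le_mul_of_nonneg_right ?_ (Mv_pos v _).le
      have h6 := one_le_c2 v
      have h7 := one_le_b01 W v
      calc c2 v ≤ c2 v ^ 10 := le_self_pow₀ h6 (by norm_num)
        _ ≤ c2 v ^ 10 * b01 W v := le_mul_of_one_le_right (by positivity) h7
  choose P hPt hPf hPc hPn using hex
  refine ⟨fun h => if H : h < 2 * n + 2 then MvPowerSeries.C (ξ h) +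
    MvPowerSeries.C (kapT T ξ ψ h) * MvPowerSeries.X ⟨h, H⟩ else 0,
    fun h => if H : h < 2 * n + 2 then P ⟨h, H⟩ else 0, ⟨?_, ?_, ?_⟩, ?_⟩
  · intro h hh
    simp only [hh, dif_pos]
    exact ⟨hPt ⟨h, hh⟩, hPf ⟨h, hh⟩⟩
  · intro h
    simp only [h.isLt, dif_pos, Fin.eta]
  · intro h
    simp only [h.isLt, dif_pos, Fin.eta]
    exact hPc h
  · intro v h hh
    simp only [hh, dif_pos]
    have hr : ∀ i : Fin (2 * n + 2), 0 < 1 / (BT W v * Mv v (rhoT T ξ i.val) ^ 2) := by
      intro i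
      have h1 := (PlC_BT W).one_le v
      have h2 := Mv_pos v (rhoT T ξ i.val)
      positivity
    exact hPn ⟨h, hh⟩ v (fun i => 1 / (BT W v * Mv v (rhoT T ξ i.val) ^ 2)) hr rfl

end Pool.Agent.Helper3.SG2
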